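import Pool.Agent.E8helper58.CM.Basic
import Pool.Agent.W907.SG.All

/-!
# CM, piece CONEQ: contraction of an edge which is in no induced 4-cycle
-/

set_option autoImplicit false

namespace Pool.Agent.E8helper73.CM

open Module Pool.Agent.W907.SG Pool.Agent.W907.SM
open Pool.Agent.TH652.Dual (triv mem_KK_triv)
open Pool.Agent.R781.VS
open Pool.Agent.E8helper58.CM

variable {V : Type} [Fintype V] [LinearOrder V] {G : SimpleGraph V} {A : Set V} {s t : V}

theorem clique_liftA (hsq : NoSqA G A s t) {T : Finset V} (hA : (T : Set V) ⊆ A) (hs : s ∉ T)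
    (ht : t ∉ T) (h : G.IsClique (T : Set V)) (h2 : ∀ y ∈ T, G.Adj s y ∨ G.Adj t y) :
    G.IsClique ((insert s T : Finset V) : Set V) ∨ G.IsClique ((insert t T : Finset V) : Set V) := by
  rw [clique_insert_iff hs, clique_insert_iff ht]
  by_contra hcon
  push Not at hcon
  obtain ⟨h3, h4⟩ := hcon
  obtain ⟨x0, hx0, hx0'⟩ := h3 h
  obtain ⟨y0, hy0, hy0'⟩ := h4 h
  have hx1 : G.Adj t x0 := (h2 x0 hx0).resolve_left hx0'
  have hy1 : G.Adj s y0 := (h2 y0 hy0).resolve_right hy0'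
  refine hsq y0 (hA hy0) x0 (hA hx0) hy1 hy0' (fun e => ht (e ▸ hy0)) hx1 hx0'
    (fun e => hs (e ▸ hx0)) ?_
  exact h hy0 hx0 (fun e => hy0' (e ▸ hx1))

omit [Fintype V] in
theorem coe_insert_sub {x : V} {U : Finset V} {B : Set V} :
    ((insert x U : Finset V) : Set V) ⊆ B ↔ x ∈ B ∧ (U : Set V) ⊆ B := by
  rw [Finset.coe_insert, Set.insert_subset_iff]

theorem cm_memA (hsA : s ∈ A) (hst : s ≠ t) {i : ℕ} {c : Finset V → ℝ}
    (h : c ∈ KK G (triv V) A ∅ i) : cm ℝ s t c ∈ KK (con G s t) (triv V) (A \ {t}) ∅ i := by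
  classical
  rw [mem_KK_triv] at h ⊢
  intro T hT
  by_cases ht : t ∈ T
  · exact cm_t _ ht
  by_cases hs : s ∈ T
  · obtain ⟨U, hU, rfl⟩ : ∃ U, s ∉ U ∧ T = insert s U :=
      ⟨T.erase s, Finset.notMem_erase _ _, (Finset.insert_erase hs).symm⟩
    have htU : t ∉ U := fun h => ht (Finset.mem_insert_of_mem h)
    rw [cm_s _ hU ht]
    have hA : (U : Set V) ⊆ A → ((insert s U : Finset V) : Set V) ⊆ A \ {t} := by
      intro h3 x hx
      rcases Finset.mem_insert.1 (Finset.mem_coe.1 hx) with rfl | hx'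
      · exact ⟨hsA, hst⟩
      · exact ⟨h3 hx', fun e => htU (by rw [← Set.mem_singleton_iff.1 e]; exact hx')⟩
    rw [h (insert s U), h (insert t U), smul_zero, add_zero]
    · rintro ⟨h3, h5, h4⟩
      rw [clique_insert_iff htU] at h3
      refine hT ⟨(con_clique_s hst hU htU).2 ⟨h3.1, fun y hy => Or.inr (h3.2 y hy)⟩,
        hA (coe_insert_sub.1 h5).2, ?_⟩
      rw [Finset.card_insert_of_notMem htU] at h4
      rw [Finset.card_insert_of_notMem hU, h4]
    · rintro ⟨h3, h5, h4⟩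
      rw [clique_insert_iff hU] at h3
      exact hT ⟨(con_clique_s hst hU htU).2 ⟨h3.1, fun y hy => Or.inl (h3.2 y hy)⟩,
        hA (coe_insert_sub.1 h5).2, h4⟩
  · rw [cm_n _ ht hs]
    refine h T ?_
    rintro ⟨h3, h5, h4⟩
    refine hT ⟨(con_clique_n hs ht).2 h3, ?_, h4⟩
    intro x hx
    exact ⟨h5 hx, fun e => ht (by rw [← Set.mem_singleton_iff.1 e]; exact hx)⟩

theorem lf_memA (htA : t ∈ A) (hst : s ≠ t) (hsq : NoSqA G A s t) {i : ℕ} {y : Finset V → ℝ}
    (h : y ∈ KK (con G s t) (triv V) (A \ {t}) ∅ i) : lf G s t y ∈ KK G (triv V) A ∅ i := by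
  classical
  rw [mem_KK_triv] at h ⊢
  intro T hT
  by_cases ht : t ∈ T
  · by_cases hs : s ∈ T
    · exact lf_st _ ht hs
    obtain ⟨U, hU, rfl⟩ : ∃ U, t ∉ U ∧ T = insert t U :=
      ⟨T.erase t, Finset.notMem_erase _ _, (Finset.insert_erase ht).symm⟩
    have hsU : s ∉ U := fun h => hs (Finset.mem_insert_of_mem h)
    by_cases hc : G.IsClique ((insert s U : Finset V) : Set V)
    · exact lf_t1 _ hU hs hc
    · rw [lf_t2 _ hU hs hc, h, smul_zero]
      rintro ⟨h3, h5, h4⟩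
      rw [con_clique_s hst hsU hU] at h3
      have h6 : (U : Set V) ⊆ A := fun x hx => ((coe_insert_sub.1 h5).2 hx).1
      refine hT ⟨(clique_liftA hsq h6 hsU hU h3.1 h3.2).resolve_left hc,
        coe_insert_sub.2 ⟨htA, h6⟩, ?_⟩
      rw [Finset.card_insert_of_notMem hsU] at h4
      rw [Finset.card_insert_of_notMem hU, h4]
  · by_cases hs : s ∈ T
    · by_cases hc : G.IsClique (T : Set V)
      · rw [lf_s1 _ ht hs hc]
        refine h T ?_
        rintro ⟨-, h5, h4⟩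
        exact hT ⟨hc, fun x hx => (h5 hx).1, h4⟩
      · exact lf_s2 _ ht hs hc
    · rw [lf_n _ ht hs]
      refine h T ?_
      rintro ⟨h3, h5, h4⟩
      exact hT ⟨(con_clique_n hs ht).1 h3, fun x hx => (h5 hx).1, h4⟩

theorem cm_lfA (hst : s ≠ t) {i : ℕ} {y : Finset V → ℝ}
    (h : y ∈ KK (con G s t) (triv V) (A \ {t}) ∅ i) : cm ℝ s t (lf G s t y) = y := by
  refine cm_lf (ρ := triv V) (i := i) hst ?_
  rw [mem_KK_triv] at h ⊢
  intro T hT
  refine h T ?_
  rintro ⟨h1, h2, h3⟩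
  exact hT ⟨h1, fun x hx => (h2 hx).2, h3⟩

theorem pr_memA (hsA : s ∈ A) (hadj : G.Adj s t) {i : ℕ} {w : Finset V → ℝ}
    (h : w ∈ KK G (triv V) A ∅ i) (h0 : cm ℝ s t w = 0) :
    pr ℝ s t w ∈ KK G (triv V) A ∅ (i + 1) := by
  classical
  have huniv : w ∈ KK G (triv V) Set.univ ∅ i := by
    rw [mem_KK_triv] at h ⊢
    intro T hT
    exact h T fun h1 => hT ⟨h1.1, Set.subset_univ _, h1.2.2⟩
  have h1 := pr_mem (ρ := triv V) hadj rfl huniv h0
  rw [mem_KK_triv] at h1 h ⊢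
  intro T hT
  by_contra hne
  have h2 : G.IsClique (T : Set V) ∧ (T : Set V) ⊆ Set.univ ∧ T.card = i + 1 := by
    by_contra hc
    exact hne (h1 T hc)
  refine hT ⟨h2.1, ?_, h2.2.2⟩
  unfold pr at hne
  by_cases hT2 : s ∈ T ∧ t ∈ T
  · rw [if_pos hT2] at hne
    have hw : w (T.erase s) ≠ 0 := fun e => hne (by rw [e, smul_zero])
    have h3 : ((T.erase s : Finset V) : Set V) ⊆ A := by
      by_contra hc
      exact hw (h _ fun h => hc h.2.1)
    rw [← Finset.insert_erase hT2.1]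
    exact coe_insert_sub.2 ⟨hsA, h3⟩
  · exact absurd (if_neg hT2) hne

theorem cm_pr (hst : s ≠ t) (w : Finset V → ℝ) : cm ℝ s t (pr ℝ s t w) = 0 := by
  classical
  funext T
  by_cases ht : t ∈ T
  · exact cm_t _ ht
  by_cases hs : s ∈ T
  · obtain ⟨U, hU, rfl⟩ : ∃ U, s ∉ U ∧ T = insert s U :=
      ⟨T.erase s, Finset.notMem_erase _ _, (Finset.insert_erase hs).symm⟩
    rw [cm_s _ hU ht]
    have e1 : pr ℝ s t w (insert s U) = 0 := by
      unfold pr
      exact if_neg fun h => ht h.2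
    have e2 : pr ℝ s t w (insert t U) = 0 := by
      unfold pr
      refine if_neg fun h => ?_
      rcases Finset.mem_insert.1 h.1 with h1 | h1
      · exact hst h1
      · exact hU h1
    rw [e1, e2, smul_zero, add_zero]
    rfl
  · rw [cm_n _ ht hs]
    unfold pr
    exact if_neg fun h => hs h.1

/-- **CONEQ** -/
theorem t_CONEQ : S_CONEQ := by
  intro V _ _ G A s t hsA htA hadj hsq i
  have hst : s ≠ t := hadj.ne
  have hcmZ : ∀ i, ∀ z ∈ ZZ G (triv V) A ∅ i,
      cm ℝ s t z ∈ ZZ (con G s t) (triv V) (A \ {t}) ∅ i := by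
    rintro i z ⟨hz1, hz2⟩
    have hz2 : bd ℝ z = 0 := hz2
    refine ⟨cm_memA hsA hst hz1, ?_⟩
    show bd ℝ (cm ℝ s t z) = 0
    rw [cm_bd hst, hz2, map_zero]
  apply le_antisymm
  · -- the Betti numbers do not increase
    have h := mid ℝ (Finset V → ℝ) (Finset V → ℝ) PUnit (cm ℝ s t) 0
      (BB G (triv V) A ∅ i) (ZZ G (triv V) A ∅ i)
      (BB (con G s t) (triv V) (A \ {t}) ∅ i) (ZZ (con G s t) (triv V) (A \ {t}) ∅ i) ⊥ ⊥
      (BB_le_ZZ _ _ _ _ _) (BB_le_ZZ _ _ _ _ _) le_rfl ?_ (by simp) ?_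
    · have h0 : finrank ℝ (⊥ : Submodule ℝ PUnit) = 0 := finrank_bot _ _
      rw [h0, Nat.sub_self, add_zero] at h
      exact h
    · rintro _ ⟨_, ⟨c, hc, rfl⟩, rfl⟩
      exact ⟨cm ℝ s t c, cm_memA hsA hst hc, cm_bd hst c⟩
    · rintro y ⟨hy1, hy2⟩ -
      have hy2 : bd ℝ y = 0 := hy2
      have hl := lf_memA htA hst hsq hy1
      have hcl := cm_lfA hst hy1
      have hw3 : cm ℝ s t (bd ℝ (lf G s t y)) = 0 := by
        rw [← cm_bd hst, hcl, hy2]
      have hw2 : bd ℝ (bd ℝ (lf G s t y)) = 0 := bd_bd _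
      have hw4 := pr_bd hst hw3 hw2
      refine ⟨lf G s t y - pr ℝ s t (bd ℝ (lf G s t y)), ⟨?_, ?_⟩, 0, Submodule.zero_mem _, ?_⟩
      · refine sub_mem hl ?_
        rcases Nat.eq_zero_or_pos i with rfl | hi
        · -- no chains below
          have hz : bd ℝ (lf G s t y) = 0 := by
            funext T
            rw [bd_apply]
            refine Finset.sum_eq_zero fun v _ => ?_
            have h5 := hl
            rw [mem_KK_triv] at h5
            rw [h5 (insert v T), smul_zero]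
            rintro ⟨-, -, h6⟩
            rw [Finset.card_eq_zero] at h6
            exact Finset.insert_ne_empty _ _ h6
          have hp : pr ℝ s t (bd ℝ (lf G s t y)) = 0 := by
            rw [hz]
            funext T
            unfold pr
            split_ifs <;> simp
          rw [hp]
          exact Submodule.zero_mem _
        · obtain ⟨j, rfl⟩ : ∃ j, i = j + 1 := ⟨i - 1, by omega⟩
          exact pr_memA hsA hadj (bd_mem_KK hl) hw3
      · show bd ℝ (lf G s t y - pr ℝ s t (bd ℝ (lf G s t y))) = 0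
        rw [map_sub, hw4, sub_self]
      · rw [map_sub, cm_pr hst, hcl, sub_zero, add_zero]
  · -- the Betti numbers do not decrease
    have h := mid ℝ PUnit (Finset V → ℝ) (Finset V → ℝ) 0 (cm ℝ s t) ⊥ ⊥
      (BB G (triv V) A ∅ i) (ZZ G (triv V) A ∅ i)
      (BB (con G s t) (triv V) (A \ {t}) ∅ i) (ZZ (con G s t) (triv V) (A \ {t}) ∅ i)
      le_rfl (BB_le_ZZ _ _ _ _ _) (BB_le_ZZ _ _ _ _ _) (by simp) ?_ ?_
    · have h0 : finrank ℝ (⊥ : Submodule ℝ PUnit) = 0 := finrank_bot _ _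
      rw [h0, Nat.sub_self, zero_add] at h
      exact h
    · rintro _ ⟨z, hz, rfl⟩
      exact hcmZ i z hz
    · rintro z ⟨hz1, hz2⟩ ⟨y, hy, hyz⟩
      have hz2 : bd ℝ z = 0 := hz2
      have hl := lf_memA htA hst hsq hy
      set w := z - bd ℝ (lf G s t y) with hw
      have hw1 : w ∈ KK G (triv V) A ∅ i := sub_mem hz1 (bd_mem_KK hl)
      have hw2 : bd ℝ w = 0 := by rw [hw, map_sub, hz2, bd_bd, sub_zero]
      have hw3 : cm ℝ s t w = 0 := by
        rw [hw, map_sub, ← cm_bd hst, cm_lfA hst hy, hyz, sub_self]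
      refine ⟨0, Submodule.zero_mem _, z, ?_, by simp⟩
      refine ⟨lf G s t y + pr ℝ s t w, add_mem hl (pr_memA hsA hadj hw1 hw3), ?_⟩
      rw [map_add, pr_bd hst hw3 hw2, hw]
      abel

end Pool.Agent.E8helper73.CM
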